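import Pool.Agent.H752.PG.Stubs
import Pool.Agent.H620R2.Gauge.A1

/-!
# A generator can be spoiled
-/

namespace Pool.Agent.H752.PG

open Pool.Agent.NPC Pool.Agent.H620R2.Gauge Finset H568R2 MeasureTheory

namespace GM6

/-- a bound for `mm x` -/
noncomputable def mp : Polynomial ℕ :=
  Polynomial.C 2 * Polynomial.X + (Polynomial.X + Polynomial.C 2) * Polynomial.X + Polynomial.C 14

theorem mm_le (x : List Bool) : mm x ≤ mp.eval x.length := by
  unfold mm mp kk
  simp only [Polynomial.eval_add, Polynomial.eval_mul, Polynomial.eval_C, Polynomial.eval_X]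
  have h1 : ones x ≤ x.length := by
    unfold ones
    exact List.length_filter_le _ _
  have h2 : x.length.size ≤ x.length := by
    rw [Nat.size_le]
    exact Nat.lt_two_pow_self
  have h3 : (ones x + 2) * x.length.size ≤ (x.length + 2) * x.length :=
    Nat.mul_le_mul (by omega) h2
  omega

theorem evm (p : Polynomial ℕ) {a b : ℕ} (h : a ≤ b) : p.eval a ≤ p.eval b := by
  rw [Polynomial.eval_eq_sum_range, Polynomial.eval_eq_sum_range]
  exact Finset.sum_le_sum fun i _ => Nat.mul_le_mul_left _ (Nat.pow_le_pow_left h i)

/-- all strings of length `D` -/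
def seeds (D : ℕ) : Finset (List Bool) := (univ : Finset (Fin D → Bool)).image List.ofFn

theorem mem_seeds {D : ℕ} {l : List Bool} (h : l.length = D) : l ∈ seeds D := by
  subst h
  exact Finset.mem_image.2 ⟨l.get, Finset.mem_univ _, List.ofFn_get l⟩

theorem len_seeds {D : ℕ} {l : List Bool} (h : l ∈ seeds D) : l.length = D := by
  obtain ⟨s, -, rfl⟩ := Finset.mem_image.1 h
  exact List.length_ofFn

theorem card_seeds (D : ℕ) : (seeds D).card ≤ 2 ^ D := by
  refine Finset.card_image_le.trans ?_
  simp

theorem pair_drop (x w : List Bool) : (pairBits x w).drop (2 * x.length + 1) = w := by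
  have h : ∀ x : List Bool, (x.flatMap (fun b => [true, b])).length = 2 * x.length := by
    intro x
    induction x with
    | nil => rfl
    | cons b x ih => simp only [List.flatMap_cons, List.length_append, List.length_cons,
        List.length_nil, ih]; ring
  unfold pairBits
  rw [← h x, ← List.drop_drop, List.drop_left]
  rfl

theorem pair_inj {x w w' : List Bool} (h : pairBits x w = pairBits x w') : w = w' := by
  rw [← pair_drop x w, h, pair_drop]

/-- the distinguishing circuit -/
def circ (x : List Bool) : Circuit :=
  ⟨[Gate.orc ((x.flatMap fun b => [(mm x, true), (mm x, b)]) ++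
    (mm x, false) :: (List.range (kk x + 1)).map fun i => (i, false))], (mm x, false)⟩

theorem circ_size (x : List Bool) : (circ x).size ≤ mm x := by
  have h : ∀ x' : List Bool, (x'.flatMap fun b => [(mm x, true), (mm x, b)]).length
      = 2 * x'.length := by
    intro x'
    induction x' with
    | nil => rfl
    | cons b x ih => simp only [List.flatMap_cons, List.length_append, List.length_cons,
        List.length_nil, ih]; ring
  unfold circ Circuit.size
  simp only [List.map_cons, List.map_nil, List.sum_cons, List.sum_nil, Gate.size,
    List.length_append, List.length_cons, List.length_map, List.length_range, h]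
  unfold mm
  omega

theorem rd_true {ws : List Bool} {m : ℕ} (h : ws.length = m) (b : Bool) :
    rd ws (m, b) = b := by
  unfold rd
  rw [List.getD_eq_default _ _ (by omega)]
  simp

theorem circ_eval (x : List Bool) (A : Oracle) (z : List Bool) (hz : z.length = mm x) :
    (circ x).eval A z = A (pairBits x (z.take (kk x + 1))) := by
  have hk : kk x + 1 ≤ z.length := by
    rw [hz]
    unfold mm
    omega
  have h1 : ∀ x' : List Bool, (x'.flatMap fun b => [(mm x, true), (mm x, b)]).map (rd z)
      = x'.flatMap (fun b => [true, b]) := by
    intro x'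
    induction x' with
    | nil => rfl
    | cons b x' ih =>
      simp only [List.flatMap_cons, List.map_append, List.map_cons, List.map_nil, ih,
        rd_true hz]
  have h2 : ((List.range (kk x + 1)).map fun i => (i, false)).map (rd z) = z.take (kk x + 1) := by
    apply List.ext_getElem
    · simp only [List.length_map, List.length_range, List.length_take]
      omega
    · intro i hi1 hi2
      simp only [List.length_map, List.length_range] at hi1
      simp only [List.getElem_map, List.getElem_range, List.getElem_take]
      unfold rd
      simp only [Bool.xor_false]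
      rw [List.getD_eq_getElem _ _ (by omega)]
  unfold circ Circuit.eval Circuit.wires
  simp only [List.foldl_cons, List.foldl_nil, Gate.val, List.map_append, List.map_cons, h1, h2,
    rd_true hz]
  unfold rd
  simp only [Bool.xor_false]
  rw [← hz, List.getD_append_right _ _ _ _ le_rfl]
  simp [pairBits]

/-- counting strings by prefixes -/
theorem count_prefix (m k : ℕ) (hk : k ≤ m) (Bad : Finset (List Bool)) :
    (univ.filter fun z : Fin m → Bool => (List.ofFn z).take k ∈ Bad).card ≤
      2 ^ (m - k) * Bad.card := by
  refine Finset.card_le_mul_card_image_of_maps_to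
    (f := fun z : Fin m → Bool => (List.ofFn z).take k) (fun z hz => (Finset.mem_filter.1 hz).2)
    (2 ^ (m - k)) fun w _ => ?_
  have h1 : Fintype.card (Fin (m - k) → Bool) = 2 ^ (m - k) := by simp
  rw [← h1, ← Finset.card_univ]
  refine Finset.card_le_card_of_injOn
    (fun z : Fin m → Bool => fun i : Fin (m - k) => z ⟨i.1 + k, by omega⟩) (fun _ _ => Finset.mem_univ _) ?_
  intro z hz z' hz' heq
  simp only [Finset.coe_filter, Finset.mem_filter, Finset.mem_univ, true_and,
    Set.mem_ofPred_eq] at hz hz'
  funext i
  rcases Nat.lt_or_ge i.1 k with hi | hi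
  · have h2 : (List.ofFn z).take k = (List.ofFn z').take k := hz.2.trans hz'.2.symm
    have h3 := congrArg (fun l : List Bool => l[i.1]?) h2
    simp only [List.getElem?_take, hi, if_true] at h3
    rw [List.getElem?_eq_getElem (by simp), List.getElem?_eq_getElem (by simp)] at h3
    simpa using h3
  · have h3 := congrFun heq ⟨i.1 - k, by omega⟩
    simp only at h3
    have h4 : (⟨i.1 - k + k, by omega⟩ : Fin m) = i := by
      apply Fin.ext
      simp only
      omega
    rwa [h4] at h3

/-- few seeds -/
theorem seeds_le {D c m : ℕ} (hm : 1 ≤ m) (h : (D : ℝ) ≤ c * Real.logb 2 m) : 2 ^ D ≤ m ^ c := by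
  have hm0 : (0 : ℝ) < m := by exact_mod_cast hm
  have h1 : (2 : ℝ) ^ (D : ℝ) ≤ 2 ^ (c * Real.logb 2 m) :=
    Real.rpow_le_rpow_of_exponent_le (by norm_num) h
  rw [mul_comm, Real.rpow_mul (by norm_num), Real.rpow_logb (by norm_num) (by norm_num) hm0,
    Real.rpow_natCast, Real.rpow_natCast] at h1
  exact_mod_cast h1

end GM6

open GM6 in
theorem t_gmod (h2 : St_short) : St_gmod := by
  classical
  intro Md MG c
  obtain ⟨qd, hqd⟩ := Md.out_local
  obtain ⟨qG, hqG⟩ := MG.out_local
  refine ⟨Md.p.comp mp + mp ^ c * (MG.p.comp (Polynomial.C 3 * mp + Polynomial.C 1) +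
    Polynomial.C 1), qd.comp mp + qG.comp (Polynomial.C 3 * mp + Polynomial.C 1) + mp,
    fun x => ⟨?_, ?_⟩⟩
  · intro hP A
    have hm1 : 1 ≤ mm x := by unfold mm; omega
    obtain ⟨A0, hA0⟩ : ∃ A0 : Oracle, A0 = fun y => if y ∈ blkG x then false else A y := ⟨_, rfl⟩
    have hA0b : ∀ y ∈ blkG x, A0 y = false := fun y hy => by rw [hA0]; simp only [hy, if_true]
    have hA0n : ∀ y ∉ blkG x, A0 y = A y := fun y hy => by rw [hA0]; simp only [hy, if_false]
    by_cases hR : ReqG Md MG c A0 x
    · exact ⟨A0, hA0n, hR⟩
    unfold ReqG at hR
    push Not at hR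
    obtain ⟨d0, G0, hd0, hG0, hgood⟩ := hR
    obtain ⟨hg1, hg2, -⟩ := hgood
    obtain ⟨D, hD⟩ : ∃ D, D = d0 (mm x) := ⟨_, rfl⟩
    obtain ⟨M, hM⟩ : ∃ M, M = mm x := ⟨_, rfl⟩
    have hMk : kk x + 1 ≤ M := by rw [hM]; unfold mm; omega
    rw [← hD] at hd0 hG0 hg1 hg2
    rw [← hM] at hd0 hG0 hg1 hg2 hm1
    obtain ⟨Sd, hSd1, -, hSd3⟩ := hqd A0 (List.replicate M true)
    choose SG hSG1 _ hSG3 using hqG A0
    have h2D := seeds_le hm1 hg1
    let S : Finset (List Bool) := Sd ∪ (seeds D).biUnion fun s =>
      SG (pairBits (List.replicate M true) s)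
    let Z : Finset (List Bool) := (seeds D).image fun s =>
      (G0 (pairBits (List.replicate M true) s)).take (kk x + 1)
    have hSc : S.card ≤ Md.p.eval M + M ^ c * MG.p.eval (3 * M + 1) := by
      refine (Finset.card_union_le _ _).trans (Nat.add_le_add ?_ ?_)
      · rw [List.length_replicate] at hSd1
        exact hSd1
      · refine Finset.card_biUnion_le.trans ?_
        calc ∑ s ∈ seeds D, (SG (pairBits (List.replicate M true) s)).card
            ≤ ∑ _s ∈ seeds D, MG.p.eval (3 * M + 1) := by
              refine Finset.sum_le_sum fun s hs => ?_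
              refine (hSG1 _).trans (evm _ ?_)
              rw [length_pairBits, List.length_replicate, len_seeds hs]
              omega
          _ = (seeds D).card * MG.p.eval (3 * M + 1) := by
              rw [Finset.sum_const, smul_eq_mul]
          _ ≤ M ^ c * MG.p.eval (3 * M + 1) :=
              Nat.mul_le_mul_right _ ((card_seeds D).trans h2D)
    have hZc : Z.card ≤ M ^ c := Finset.card_image_le.trans ((card_seeds D).trans h2D)
    let Good' : List Bool → Prop := fun y => ∃ w : List Bool, w.length = kk x + 1 ∧
      y = pairBits x w ∧ y ∉ S ∧ w ∉ Z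
    let A' : Oracle := fun y => if Good' y then true else A0 y
    have hA'S : ∀ y ∈ S, A' y = A0 y := by
      intro y hy
      have : ¬ Good' y := by
        rintro ⟨w, -, -, h3, -⟩
        exact h3 hy
      simp only [A', this, if_false]
    refine ⟨A', ?_, ?_⟩
    · intro y hy
      have : ¬ Good' y := by
        rintro ⟨w, h3, h4, -, -⟩
        exact hy ⟨w, h3, h4⟩
      simp only [A', this, if_false]
      exact hA0n y hy
    · intro d G hd hG hgd
      rw [← hM] at hd hG hgd
      have e1 : Md.out A' (List.replicate M true) = Md.out A0 (List.replicate M true) :=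
        hSd3 A' fun q hq => hA'S q (Finset.mem_union_left _ hq)
      rw [e1, hd0] at hd
      have hdD : D = d M := by
        have := congrArg (fun o : Option (List Bool) => (o.getD []).length) hd
        simpa using this
      have hout : ∀ s : List Bool, s.length = D →
          G (pairBits (List.replicate M true) s) = G0 (pairBits (List.replicate M true) s) := by
        intro s hs
        have e2 : MG.out A' (pairBits (List.replicate M true) s)
            = MG.out A0 (pairBits (List.replicate M true) s) :=
          hSG3 _ A' fun q hq => hA'S q (Finset.mem_union_right _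
            (Finset.mem_biUnion.2 ⟨s, mem_seeds hs, hq⟩))
        have e3 := (hG s (by rw [hs, hdD])).1
        rw [e2, (hG0 s hs).1, Option.some.injEq] at e3
        exact e3.symm
      have hev : ∀ z : List Bool, z.length = M →
          (circ x).eval A' z = A' (pairBits x (z.take (kk x + 1))) := by
        intro z hz
        exact circ_eval x A' z (hz.trans hM)
      obtain ⟨-, -, hC⟩ := hgd
      have hC' := hC (circ x) (by rw [hM]; exact circ_size x)
      have hG0' : accG (circ x) A' G M (d M) = 0 := by
        unfold accG
        have : IsEmpty {s : Fin (d M) → Bool //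
            (circ x).eval A' (G (pairBits (List.replicate M true) (List.ofFn s))) = true} := by
          refine ⟨fun s => ?_⟩
          obtain ⟨s, hs⟩ := s
          have hl : (List.ofFn s).length = D := by rw [List.length_ofFn, hdD]
          rw [hout _ hl, hev _ (hG0 _ hl).2] at hs
          have hb : pairBits x ((G0 (pairBits (List.replicate M true) (List.ofFn s))).take
              (kk x + 1)) ∈ blkG x := by
            refine ⟨_, ?_, rfl⟩
            rw [List.length_take, (hG0 _ hl).2]
            omega
          have hng : ¬ Good' (pairBits x ((G0 (pairBits (List.replicate M true)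
              (List.ofFn s))).take (kk x + 1))) := by
            rintro ⟨w, -, h4, -, h5⟩
            apply h5
            rw [← pair_inj h4]
            exact Finset.mem_image_of_mem _ (mem_seeds hl)
          simp only [A', hng, if_false, hA0b _ hb] at hs
          exact absurd hs (by simp)
        rw [Nat.card_of_isEmpty]
        simp
      -- the uniform distribution
      let Bad : Finset (List Bool) := S.image (fun y => y.drop (2 * x.length + 1)) ∪ Z
      have hBadc : 2 * Bad.card ≤ 2 ^ kk x := by
        refine le_trans ?_ hP
        apply Nat.mul_le_mul_left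
        refine (Finset.card_union_le _ _).trans ?_
        have hMmp : M ≤ mp.eval x.length := by rw [hM]; exact mm_le x
        simp only [Polynomial.eval_add, Polynomial.eval_mul, Polynomial.eval_comp,
          Polynomial.eval_pow, Polynomial.eval_C]
        have i1 : (S.image (fun y => y.drop (2 * x.length + 1))).card ≤
            Md.p.eval M + M ^ c * MG.p.eval (3 * M + 1) := Finset.card_image_le.trans hSc
        have i2 : Md.p.eval M ≤ Md.p.eval (mp.eval x.length) := evm _ hMmp
        have i3 : M ^ c ≤ (mp.eval x.length) ^ c := Nat.pow_le_pow_left hMmp c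
        have i4 : MG.p.eval (3 * M + 1) ≤ MG.p.eval (3 * mp.eval x.length + 1) :=
          evm _ (by omega)
        calc (S.image (fun y => y.drop (2 * x.length + 1))).card + Z.card
            ≤ (Md.p.eval M + M ^ c * MG.p.eval (3 * M + 1)) + M ^ c := Nat.add_le_add i1 hZc
          _ = Md.p.eval M + M ^ c * (MG.p.eval (3 * M + 1) + 1) := by ring
          _ ≤ _ := Nat.add_le_add i2 (Nat.mul_le_mul i3 (Nat.add_le_add_right i4 1))
      have hcount := count_prefix M (kk x + 1) hMk Bad
      have hsub : (univ.filter fun z : Fin M → Bool => ¬ (circ x).eval A' (List.ofFn z) = true) ⊆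
          univ.filter fun z : Fin M → Bool => (List.ofFn z).take (kk x + 1) ∈ Bad := by
        intro z hz
        rw [Finset.mem_filter] at hz ⊢
        refine ⟨Finset.mem_univ _, ?_⟩
        have hz2 := hz.2
        rw [hev _ List.length_ofFn] at hz2
        by_contra hb
        apply hz2
        have : Good' (pairBits x ((List.ofFn z).take (kk x + 1))) := by
          refine ⟨_, ?_, rfl, ?_, ?_⟩
          · rw [List.length_take, List.length_ofFn]
            omega
          · intro h3
            apply hb
            apply Finset.mem_union_left
            have := Finset.mem_image_of_mem (fun y : List Bool => y.drop (2 * x.length + 1)) h3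
            simp only [pair_drop] at this
            exact this
          · intro h3
            exact hb (Finset.mem_union_right _ h3)
        simp only [A', this, if_true]
      have hcard2 : (univ.filter fun z : Fin M → Bool =>
          (circ x).eval A' (List.ofFn z) = true).card +
          (univ.filter fun z : Fin M → Bool => ¬ (circ x).eval A' (List.ofFn z) = true).card
          = 2 ^ M := by
        rw [Finset.card_filter_add_card_filter_not]
        simp
      have hbad2 : 2 * (univ.filter fun z : Fin M → Bool =>
          ¬ (circ x).eval A' (List.ofFn z) = true).card ≤ 2 ^ M := by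
        have i1 := (Finset.card_le_card hsub).trans hcount
        have i2 : 2 ^ M = 2 ^ (M - (kk x + 1)) * (2 * 2 ^ kk x) := by
          rw [← pow_succ', ← pow_add, Nat.sub_add_cancel hMk]
        calc 2 * (univ.filter fun z : Fin M → Bool =>
            ¬ (circ x).eval A' (List.ofFn z) = true).card
            ≤ 2 * (2 ^ (M - (kk x + 1)) * Bad.card) := Nat.mul_le_mul_left 2 i1
          _ = 2 ^ (M - (kk x + 1)) * (2 * Bad.card) := by ring
          _ ≤ 2 ^ (M - (kk x + 1)) * (2 * 2 ^ kk x) := Nat.mul_le_mul_left _ (by omega)
          _ = 2 ^ M := i2.symm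
      have hU : 1 / 2 ≤ accU (circ x) A' M := by
        unfold accU
        rw [Nat.card_eq_fintype_card, Fintype.card_subtype, div_le_div_iff₀ (by norm_num)
          (by positivity)]
        have i3 : 2 ^ M ≤ 2 * (univ.filter fun z : Fin M → Bool =>
          (circ x).eval A' (List.ofFn z) = true).card := by omega
        have i4 : ((2 ^ M : ℕ) : ℝ) ≤ ((2 * (univ.filter fun z : Fin M → Bool =>
          (circ x).eval A' (List.ofFn z) = true).card : ℕ) : ℝ) := by exact_mod_cast i3
        push_cast at i4
        linarith
      rw [hG0', zero_sub, abs_neg, abs_of_nonneg (by linarith)] at hC'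
      linarith
  · intro A A' hAA hR d G hd hG hgd
    have hmp := mm_le x
    have hlen : (Polynomial.eval x.length (qd.comp mp + qG.comp (Polynomial.C 3 * mp +
        Polynomial.C 1) + mp)) = qd.eval (mp.eval x.length) +
        qG.eval (3 * mp.eval x.length + 1) + mp.eval x.length := by
      simp only [Polynomial.eval_add, Polynomial.eval_mul, Polynomial.eval_comp,
        Polynomial.eval_C]
    rw [hlen] at hAA
    have hd' : Md.out A (List.replicate (mm x) true) = Md.out A' (List.replicate (mm x) true) := by
      obtain ⟨S, -, h3, h4⟩ := hqd A (List.replicate (mm x) true)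
      refine (h4 A' fun q hq => ?_).symm
      refine hAA q ((h3 q hq).trans ?_)
      rw [List.length_replicate]
      have := evm qd hmp
      omega
    refine hR d G (hd'.trans hd) ?_ ?_
    · intro s hs
      refine ⟨?_, (hG s hs).2⟩
      rw [← (hG s hs).1]
      obtain ⟨S, -, h3, h4⟩ := hqG A (pairBits (List.replicate (mm x) true) s)
      refine (h4 A' fun q hq => ?_).symm
      refine hAA q ((h3 q hq).trans ?_)
      rw [length_pairBits, List.length_replicate, hs]
      have hdm := hgd.2.1
      have := evm qG (show 2 * mm x + 1 + d (mm x) ≤ 3 * mp.eval x.length + 1 by omega)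
      omega
    · obtain ⟨g1, g2, g3⟩ := hgd
      refine ⟨g1, g2, fun C hC => ?_⟩
      have hev : ∀ z, C.eval A' z = C.eval A z := fun z =>
        h2 C (mm x) hC A A' (fun y hy => hAA y (by omega)) z
      have h5 := g3 C hC
      unfold accG accU at h5 ⊢
      simp only [hev] at h5
      exact h5

end Pool.Agent.H752.PG
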